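import Pool.Agent.TH482.Lower

/-!
# `f_r(k) = O(r² / log k)` fails: a lower bound `Ω((r² / log k) log log (r / log k))`

`IntCov k H` : the `r`-partite `r`-graph `H` (a finite set of transversals `Fin r → Fin n`) is
`k`-intersectingly covered; `tau H` : its cover number.
-/

set_option autoImplicit false

namespace Pool.Agent.Results.MP_39270e_co.LogLogLower

open Pool.Agent.TH482

/-- There are absolute constants `c, C > 0` such that `f_r(k) ≥ c (r² / log k) log log (r / log k)`
whenever `2 ≤ r ≤ k` and `C log k ≤ r`. Hence `f_r(k) log k / r²` is unbounded, and it tends to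
infinity whenever `k = k(r) ≥ r` satisfies `log k = o(r)`. (For `k < r` the function `f_r(k)` is
infinite, by complete `r`-partite hypergraphs.) -/
theorem result : ∃ c C : ℝ, 0 < c ∧ 0 < C ∧ ∀ r k : ℕ, 2 ≤ r → r ≤ k → C * Real.log k ≤ r →
    ∃ (n : ℕ) (H : Finset (Fin r → Fin n)), IntCov k H ∧
      c * ((r : ℝ) ^ 2 / Real.log k) * Real.log (Real.log (r / Real.log k)) ≤ tau H := by
  obtain ⟨C, hC, h⟩ := lower
  refine ⟨1 / 40960, C, by norm_num, hC, fun r k hr hrk hCk => h r k hrk hCk ?_⟩
  exact Real.log_pos (by exact_mod_cast (show 1 < k by omega))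

end Pool.Agent.Results.MP_39270e_co.LogLogLower
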