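import Pool.Agent.TH482.Upper2

/-!
# `f_r(k) ≤ 100 (r² / log k) (1 + log (r / log k))`

`IntCov k H` : the `r`-partite `r`-graph `H` (a finite set of transversals `Fin r → Fin n`) is
`k`-intersectingly covered; `tau H` : its cover number.
-/

set_option autoImplicit false

namespace Pool.Agent.Results.MP_39270e_co.UpperLogRatio

open Pool.Agent.TH482

/-- For all `1 ≤ r < k` with `log k ≤ r`, every `k`-intersectingly covered `r`-partite `r`-graph has
cover number at most `100 (r² / log k) (1 + log (r / log k))`. In particular `f_r(k) = O(r² / log k)`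
uniformly in every range `c r ≤ log k ≤ r`, `c > 0` fixed, where the known bound was
`O(r² log r / log k)`. -/
theorem result : ∀ r k : ℕ, 1 ≤ r → r < k → Real.log k ≤ r →
    ∀ (n : ℕ) (H : Finset (Fin r → Fin n)), IntCov k H →
      (tau H : ℝ) ≤ 100 * ((r : ℝ) ^ 2 / Real.log k) * (1 + Real.log (r / Real.log k)) :=
  fun r k hr hrk hk n H hH => upper r k hr hrk hk n H hH

end Pool.Agent.Results.MP_39270e_co.UpperLogRatio
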